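import Pool.Agent.Helper65.KG.Goals

/-!
# Project KG (MP_20ee5e_ag), packet PI: the pair inequality
-/

set_option autoImplicit false

open MeasureTheory Set

namespace Pool.Agent.Helper34.KG.PI

open Pool.Agent.Helper70.KN Pool.Agent.Helper65.KG

theorem t (hCT : S_CT) (hRY : S_RY) (hFE : S_FE) (hSW : S_SW) : S_PI := by
  intro N V c hN hT J i j hij hi hj
  have hc : 0 < c := hT.2.1
  have hconv : Convenient V := hT.1
  have hC : Cut V (Lc V c) (1 / c) := hCT N V c hN hT
  obtain ⟨d1, d2, d3, d4, d5, -⟩ := pDM N V (Lc V c) (1 / c) hC j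
  set f : (Fin N → ℝ) → ENNReal := fun x => ENNReal.ofReal (1 - c * dm (Lc V c) j x) with hf
  have hle : ∀ x, c * dm (Lc V c) j x ≤ 1 := fun x => by
    have h := mul_le_mul_of_nonneg_left (d3 x).2 hc.le
    rwa [mul_one_div_cancel hc.ne'] at h
  have hge : ∀ x, 0 ≤ c * dm (Lc V c) j x := fun x => mul_nonneg hc.le (d3 x).1
  have hOk : Ok V c f := by
    refine ⟨?_, fun x r hr => ?_, fun z v t hv ht hgood => ?_⟩
    · exact (measurable_const.sub (d4.const_mul c)).ennreal_ofReal
    · simp only [hf]
      rw [d5 x r hr]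
    · obtain ⟨w, hw, hact, hwj⟩ := d1 (pv z t v)
      obtain ⟨-, hR⟩ := hRY N V c hN hT z v hv hgood t ht.le
      have hz := (hR ht w hw hact).1
      have h1 := d2 z w hw hz
      apply ENNReal.ofReal_le_ofReal
      rw [hwj] at h1
      have := mul_le_mul_of_nonneg_left h1 hc.le
      linarith
  have hW0 : ∀ F : Finset (Fin N), 0 ≤ W V F := fun F => ENNReal.toReal_nonneg
  -- the integral over a face
  have hface : ∀ F : Finset (Fin N), j ∉ F → 0 < (N : ℝ) - F.card →
      ∫⁻ x in cyl V F, f (zr F x) ≠ ⊤ ∧ (∫⁻ x in cyl V F, f (zr F x)).toReal =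
        W V F - c * (W V (insert j F) / ((N : ℝ) - F.card)) := by
    intro F hF hpos
    obtain ⟨hms, hfin, -⟩ := pMF N V hconv F
    have hzr : Measurable (fun x : Fin N → ℝ => zr F x) := by
      refine measurable_pi_lambda _ fun k => ?_
      unfold zr
      by_cases hk : k ∈ F
      · simp [hk]
      · simpa [hk] using measurable_pi_apply k
    have hm1 : Measurable fun x => f (zr F x) := hOk.1.comp hzr
    have hfe := hFE N V (Lc V c) (1 / c) hC F j hF
    have hsum : ∫⁻ x in cyl V F, f (zr F x) +
        ENNReal.ofReal c * ENNReal.ofReal (dm (Lc V c) j (zr F x)) = volume (cyl V F) := by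
      have : ∀ x, f (zr F x) + ENNReal.ofReal c * ENNReal.ofReal (dm (Lc V c) j (zr F x)) = 1 := by
        intro x
        rw [← ENNReal.ofReal_mul hc.le]
        simp only [hf]
        rw [← ENNReal.ofReal_add (by linarith [hle (zr F x)]) (hge _)]
        simp
      simp [this]
    have hm2 : Measurable fun x => ENNReal.ofReal (dm (Lc V c) j (zr F x)) :=
      (d4.comp hzr).ennreal_ofReal
    rw [lintegral_add_left hm1, lintegral_const_mul _ hm2, hfe] at hsum
    have hfin1 : ∫⁻ x in cyl V F, f (zr F x) ≠ ⊤ := by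
      intro h
      rw [h, top_add] at hsum
      exact hfin hsum.symm
    refine ⟨hfin1, ?_⟩
    have h2 := congrArg ENNReal.toReal hsum
    rw [ENNReal.toReal_add hfin1 (ENNReal.mul_ne_top ENNReal.ofReal_ne_top
      ENNReal.ofReal_ne_top), ENNReal.toReal_mul, ENNReal.toReal_ofReal hc.le,
      ENNReal.toReal_ofReal (div_nonneg (hW0 (insert j F)) hpos.le)] at h2
    have h3 : (volume (cyl V F)).toReal = W V F := rfl
    rw [h3] at h2
    linarith
  have hcard2 : J.card + 2 ≤ N := by
    have h1 : (insert i (insert j J)).card = J.card + 2 := by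
      rw [Finset.card_insert_of_notMem, Finset.card_insert_of_notMem hj]
      simp only [Finset.mem_insert, not_or]
      exact ⟨hij, hi⟩
    have h2 := Finset.card_le_univ (insert i (insert j J))
    rw [h1, Fintype.card_fin] at h2
    exact h2
  have hcard2' : (J.card : ℝ) + 2 ≤ N := by exact_mod_cast hcard2
  have hji : j ∉ insert i J := by
    simp only [Finset.mem_insert, not_or]
    exact ⟨fun h => hij h.symm, hj⟩
  have hci : ((insert i J).card : ℝ) = J.card + 1 := by
    rw [Finset.card_insert_of_notMem hi]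
    push_cast
    ring
  obtain ⟨a1, a2⟩ := hface J hj (by linarith)
  obtain ⟨b1, b2⟩ := hface (insert i J) hji (by rw [hci]; linarith)
  have hsw := hSW N V c hN hT f hOk J i hi
  have hm : 0 < (N : ℝ) - J.card := by linarith
  have hm' : 0 < (N : ℝ) - J.card - 1 := by linarith
  have h1 := ENNReal.toReal_mono a1 hsw
  rw [ENNReal.toReal_mul, ENNReal.toReal_ofReal (div_nonneg hc.le hm.le), a2, b2, hci,
    Finset.insert_comm j i J] at h1
  have e : (N : ℝ) - (J.card + 1) = N - J.card - 1 := by ring
  rw [e] at h1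
  have h2 := mul_le_mul_of_nonneg_left h1 (mul_pos hm hm').le
  have e1 : ((N : ℝ) - J.card) * ((N : ℝ) - J.card - 1) * (c / ((N : ℝ) - J.card) *
      (W V (insert i J) - c * (W V (insert i (insert j J)) / ((N : ℝ) - J.card - 1)))) =
      c * ((N : ℝ) - J.card - 1) * W V (insert i J) - c ^ 2 * W V (insert i (insert j J)) := by
    field_simp
  have e2 : ((N : ℝ) - J.card) * ((N : ℝ) - J.card - 1) * (W V J -
      c * (W V (insert j J) / ((N : ℝ) - J.card))) =
      ((N : ℝ) - J.card) * ((N : ℝ) - J.card - 1) * W V J -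
        c * ((N : ℝ) - J.card - 1) * W V (insert j J) := by
    field_simp
  rw [e1, e2] at h2
  linarith

end Pool.Agent.Helper34.KG.PI
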